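import Pool.Agent.ILL.Fin

/-!
# MP_859dbe_an: illumination by circles of all arithmetic (parallelogram-tiled) surfaces

Let `S` be a closed connected translation surface glued from finitely many copies of one
parallelogram and let `p` be a point which is not a cone singularity. Then the circles of radius `t`
about `p` become equidistributed with respect to the area measure as `t → ∞`.
-/

open MeasureTheory Set Filter Topology Pool.Agent.ILL

namespace Pool.Agent.Results.MP_859dbe_an.ArithmeticSurfaces

/-- Every parallelogram-tiled surface is illuminated by circles from every regular point `p`: for every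
`t ≥ 0` and all but countably many directions the point reached from `p` after time `t` is well
defined, and the averages of a continuous function `h` over these points, over all directions, converge
to the mean of `h` as `t → ∞`. -/
theorem result (S : TiledSurface) (p : S.X) (hp : S.Regular p) :
    (∀ t ≥ (0 : ℝ), {θ : ℝ | θ ∈ Icc (0 : ℝ) 1 ∧ ¬ ∃! x, S.Flow p θ t x}.Countable) ∧
    ∀ F : ℝ → ℝ → S.X,
      (∀ t ≥ (0 : ℝ), ∀ᵐ θ ∂(volume.restrict (Icc (0 : ℝ) 1)), S.Flow p θ t (F t θ)) →
      ∀ h : S.X → ℝ, Continuous h →
        Tendsto (fun t : ℝ => ∫ θ in (0 : ℝ)..1, h (F t θ)) atTop (𝓝 (S.mean h)) :=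
  TiledSurface.illuminated S p hp

end Pool.Agent.Results.MP_859dbe_an.ArithmeticSurfaces
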